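import Pool.Agent.H97.RK.Targets

/-!
Row NX2 of the board rks_modules.
-/

set_option autoImplicit false

namespace Pool.Agent.H27.RKS

open Finset Pool.Agent.H97.RK

theorem four_mul_le_nine_pow (n : ℕ) : 4 * (n : ℝ) ≤ 9 ^ n := by
  induction n with
  | zero => simp
  | succ n ih =>
    have h1 : (1 : ℝ) ≤ 9 ^ n := one_le_pow₀ (by norm_num)
    rw [pow_succ]
    push_cast
    linarith

theorem choose_le_exp (m t : ℕ) (ht : 1 ≤ t) :
    (m.choose t : ℝ) ≤ (Real.exp 1 * ((m : ℝ) / t)) ^ t := by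
  have ht0 : (0 : ℝ) < t := by exact_mod_cast ht
  have h1 : (m.choose t : ℝ) ≤ (m : ℝ) ^ t / (t.factorial : ℝ) := Nat.choose_le_pow_div t m
  have h2 : (t : ℝ) ^ t / (t.factorial : ℝ) ≤ Real.exp t :=
    Real.pow_div_factorial_le_exp t ht0.le t
  have hf : (0 : ℝ) < (t.factorial : ℝ) := by exact_mod_cast t.factorial_pos
  have htt : (0 : ℝ) < (t : ℝ) ^ t := by positivity
  calc (m.choose t : ℝ) ≤ (m : ℝ) ^ t / (t.factorial : ℝ) := h1
    _ = ((m : ℝ) ^ t / (t : ℝ) ^ t) * ((t : ℝ) ^ t / (t.factorial : ℝ)) := by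
        field_simp
    _ ≤ ((m : ℝ) ^ t / (t : ℝ) ^ t) * Real.exp t :=
        mul_le_mul_of_nonneg_left h2 (by positivity)
    _ = (Real.exp 1 * ((m : ℝ) / t)) ^ t := by
        rw [mul_pow, div_pow, ← Real.exp_nat_mul, mul_one, mul_comm]

theorem pf_NX2 : T_NX2 := by
  intro δ hδ0 hδ1
  refine ⟨max 1 ⌈8 / δ⌉₊, le_max_left _ _, ?_⟩
  intro K' k n m t d e hK' hk hn hm hd hdn he hnt
  have hK'8 : 8 / δ ≤ (K' : ℝ) :=
    (Nat.le_ceil _).trans (by exact_mod_cast (le_max_right _ _).trans hK')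
  have hK'0 : (0 : ℝ) < K' := lt_of_lt_of_le (by positivity) hK'8
  have hn1 : 1 ≤ n := (le_max_left _ _).trans hn
  have hn0 : (0 : ℝ) < n := by exact_mod_cast hn1
  have hk1 : 1 ≤ k := (le_max_left _ _).trans hk
  have hk0 : (0 : ℝ) < k := by exact_mod_cast hk1
  have ht1 : 1 ≤ t := by
    rcases Nat.eq_zero_or_pos t with h | h
    · exfalso
      rw [h, Nat.cast_zero, mul_zero] at hnt
      linarith
    · exact h
  have ht0 : (0 : ℝ) < t := by exact_mod_cast ht1
  have hdn' : (d : ℝ) ≤ n := by exact_mod_cast hdn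
  have he' : 2 * (e : ℝ) ≤ d := by exact_mod_cast he
  have he0 : (0 : ℝ) ≤ e := Nat.cast_nonneg e
  -- the base
  have hb0 : 0 ≤ ((n : ℝ) - d + e) / (2 * n) := by
    apply div_nonneg _ (by positivity)
    linarith
  have hb : ((n : ℝ) - d + e) / (2 * n) ≤ (1 / 2) * Real.exp (-(δ / 2)) := by
    have h1 : ((n : ℝ) - d + e) / (2 * n) ≤ (1 / 2) * (1 - δ / 2) := by
      rw [div_le_iff₀ (by positivity)]
      nlinarith
    have h2 : 1 - δ / 2 ≤ Real.exp (-(δ / 2)) := by
      have := Real.add_one_le_exp (-(δ / 2))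
      linarith
    linarith
  -- the bracket
  have hmt : (m : ℝ) / t ≤ (2 : ℝ) ^ k * Real.exp (δ * k / 8) * (δ * k / 16) := by
    have h1 : (2 : ℝ) ^ ((1 + 1 / (K' : ℝ)) * k) ≤ (2 : ℝ) ^ k * Real.exp (δ * k / 8) := by
      have h2 : (2 : ℝ) ^ ((1 + 1 / (K' : ℝ)) * k) = (2 : ℝ) ^ k * (2 : ℝ) ^ ((k : ℝ) / K') := by
        rw [← Real.rpow_natCast 2 k, ← Real.rpow_add (by norm_num)]
        congr 1
        ring
      rw [h2]
      apply mul_le_mul_of_nonneg_left _ (by positivity)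
      rw [Real.rpow_def_of_pos (by norm_num)]
      apply Real.exp_le_exp.mpr
      have h3 : Real.log 2 ≤ 1 := by
        have := Real.log_two_lt_d9
        linarith
      have h4 : (k : ℝ) / K' ≤ δ * k / 8 := by
        rw [div_le_iff₀ hK'0]
        have h5 : 8 ≤ K' * δ := by
          rw [div_le_iff₀ hδ0] at hK'8
          exact hK'8
        nlinarith
      have h6 : 0 ≤ (k : ℝ) / K' := by positivity
      calc Real.log 2 * ((k : ℝ) / K') ≤ 1 * ((k : ℝ) / K') :=
            mul_le_mul_of_nonneg_right h3 h6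
        _ ≤ δ * k / 8 := by rw [one_mul]; exact h4
    have h7 : (n : ℝ) / t ≤ δ * k / 16 := by
      rw [div_le_iff₀ ht0]
      linarith
    calc (m : ℝ) / t ≤ ((2 : ℝ) ^ ((1 + 1 / (K' : ℝ)) * k) * n) / t :=
          div_le_div_of_nonneg_right hm ht0.le
      _ = (2 : ℝ) ^ ((1 + 1 / (K' : ℝ)) * k) * (n / t) := by ring
      _ ≤ ((2 : ℝ) ^ k * Real.exp (δ * k / 8)) * (δ * k / 16) :=
          mul_le_mul h1 h7 (by positivity) (by positivity)
  have hbr : Real.exp 1 * ((m : ℝ) / t) * (((n : ℝ) - d + e) / (2 * n)) ^ k ≤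
      Real.exp (-(δ * k / 4)) := by
    have h1 : (((n : ℝ) - d + e) / (2 * n)) ^ k ≤ (1 / 2) ^ k * Real.exp (-(δ * k / 2)) := by
      calc (((n : ℝ) - d + e) / (2 * n)) ^ k ≤ ((1 / 2) * Real.exp (-(δ / 2))) ^ k :=
            pow_le_pow_left₀ hb0 hb k
        _ = (1 / 2) ^ k * Real.exp (-(δ * k / 2)) := by
            rw [mul_pow, ← Real.exp_nat_mul]
            congr 2
            ring
    have h2 : Real.exp 1 * (δ * k / 16) ≤ Real.exp (δ * k / 8) := by
      have h3 : δ * k / 8 ≤ Real.exp (δ * k / 8 - 1) := by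
        have := Real.add_one_le_exp (δ * k / 8 - 1)
        linarith
      have h4 : Real.exp (δ * k / 8) = Real.exp 1 * Real.exp (δ * k / 8 - 1) := by
        rw [← Real.exp_add]
        congr 1
        ring
      rw [h4]
      apply mul_le_mul_of_nonneg_left _ (Real.exp_pos 1).le
      have h5 : 0 ≤ δ * k / 16 := by positivity
      linarith
    calc Real.exp 1 * ((m : ℝ) / t) * (((n : ℝ) - d + e) / (2 * n)) ^ k
        ≤ Real.exp 1 * ((2 : ℝ) ^ k * Real.exp (δ * k / 8) * (δ * k / 16)) *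
            ((1 / 2) ^ k * Real.exp (-(δ * k / 2))) := by
          apply mul_le_mul _ h1 (by positivity) (by positivity)
          exact mul_le_mul_of_nonneg_left hmt (Real.exp_pos 1).le
      _ = ((2 : ℝ) ^ k * (1 / 2) ^ k) * (Real.exp 1 * (δ * k / 16)) *
            (Real.exp (δ * k / 8) * Real.exp (-(δ * k / 2))) := by ring
      _ = (Real.exp 1 * (δ * k / 16)) * (Real.exp (δ * k / 8) * Real.exp (-(δ * k / 2))) := by
          have h6 : (2 : ℝ) ^ k * (1 / 2) ^ k = 1 := by rw [← mul_pow]; norm_num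
          rw [h6, one_mul]
      _ ≤ Real.exp (δ * k / 8) * (Real.exp (δ * k / 8) * Real.exp (-(δ * k / 2))) :=
          mul_le_mul_of_nonneg_right h2 (by positivity)
      _ = Real.exp (-(δ * k / 4)) := by
          rw [← Real.exp_add, ← Real.exp_add]
          congr 1
          ring
  have hmain : (m.choose t : ℝ) * (((n : ℝ) - d + e) / (2 * n)) ^ (k * t) ≤
      Real.exp (-(4 * (n : ℝ))) := by
    calc (m.choose t : ℝ) * (((n : ℝ) - d + e) / (2 * n)) ^ (k * t)
        ≤ (Real.exp 1 * ((m : ℝ) / t)) ^ t * (((n : ℝ) - d + e) / (2 * n)) ^ (k * t) :=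
          mul_le_mul_of_nonneg_right (choose_le_exp m t ht1) (by positivity)
      _ = (Real.exp 1 * ((m : ℝ) / t) * (((n : ℝ) - d + e) / (2 * n)) ^ k) ^ t := by
          rw [pow_mul, ← mul_pow]
      _ ≤ (Real.exp (-(δ * k / 4))) ^ t :=
          pow_le_pow_left₀ (by positivity) hbr t
      _ = Real.exp ((t : ℝ) * (-(δ * k / 4))) := (Real.exp_nat_mul _ _).symm
      _ ≤ Real.exp (-(4 * (n : ℝ))) := by
          apply Real.exp_le_exp.mpr
          linarith
  have hexp4 : Real.exp (-4) ≤ 1 / 54 := by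
    have h1 : Real.exp 4 = (Real.exp 1) ^ 4 := by
      rw [← Real.exp_nat_mul]
      norm_num
    rw [Real.exp_neg, one_div]
    apply inv_anti₀ (by norm_num)
    rw [h1]
    have h2 := Real.exp_one_gt_d9
    calc (54 : ℝ) ≤ (2.7182818283 : ℝ) ^ 4 := by norm_num
      _ ≤ (Real.exp 1) ^ 4 := pow_le_pow_left₀ (by norm_num) h2.le 4
  have h9 := four_mul_le_nine_pow n
  calc (6 : ℝ) ^ n * m.choose t * (((n : ℝ) - d + e) / (2 * n)) ^ (k * t)
      = 6 ^ n * ((m.choose t : ℝ) * (((n : ℝ) - d + e) / (2 * n)) ^ (k * t)) := by ring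
    _ ≤ 6 ^ n * Real.exp (-(4 * (n : ℝ))) := mul_le_mul_of_nonneg_left hmain (by positivity)
    _ = 6 ^ n * (Real.exp (-4)) ^ n := by
        rw [← Real.exp_nat_mul]
        congr 2
        ring
    _ ≤ 6 ^ n * (1 / 54) ^ n :=
        mul_le_mul_of_nonneg_left (pow_le_pow_left₀ (Real.exp_pos _).le hexp4 n) (by positivity)
    _ = 1 / 9 ^ n := by
        rw [← mul_pow, ← one_div_pow]
        norm_num
    _ ≤ 1 / (4 * n) := by
        apply one_div_le_one_div_of_le (by positivity) h9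

end Pool.Agent.H27.RKS
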