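import Pool.Agent.H97.RK.Targets

/-!
Row TRS of the board rks_modules.
-/

set_option autoImplicit false

namespace Pool.Agent.H27.RKS

open Finset Pool.Agent.H97.RK

variable {n k m : ℕ}

/-- the variables of the clause `c` outside `T` -/
def Vt (F : Fml n k m) (T : Finset (Fin n)) (c : Fin m) : Finset (Fin n) :=
  (univ.image fun i => (F c i).1) \ T

/-- the variables of the clauses of `J` outside `T` -/
def Ut (F : Fml n k m) (T : Finset (Fin n)) (J : Finset (Fin m)) : Finset (Fin n) :=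
  J.biUnion (Vt F T)

theorem ut_eq (F : Fml n k m) (T : Finset (Fin n)) (J : Finset (Fin m)) :
    (J.biUnion fun c => univ.image fun i => (F c i).1) \ T = Ut F T J := by
  ext u
  simp only [Ut, Vt, mem_sdiff, mem_biUnion]
  constructor
  · rintro ⟨⟨c, hc, hu⟩, hT⟩
    exact ⟨c, hc, hu, hT⟩
  · rintro ⟨c, hc, hu, hT⟩
    exact ⟨⟨c, hc, hu⟩, hT⟩

theorem mem_vt (F : Fml n k m) (T : Finset (Fin n)) (c : Fin m) (u : Fin n) :
    u ∈ Vt F T c ↔ (∃ i, (F c i).1 = u) ∧ u ∉ T := by
  simp only [Vt, mem_sdiff, mem_image, mem_univ, true_and]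

/-- if Hall's condition holds above `J'`, the assignment can be extended -/
theorem ok_of_hall (F : Fml n k m) (z₀ : Fin n → Bool) (T : Finset (Fin n))
    (J J' : Finset (Fin m)) (hok : Ok F z₀ T J')
    (hall : ∀ J'' : Finset (Fin m), J'' ⊆ J \ J' → J''.card ≤ (Ut F T J'' \ Ut F T J').card) :
    Ok F z₀ T J := by
  classical
  obtain ⟨z, hzT, hz⟩ := hok
  have h1 : ∀ S : Finset {c // c ∈ J \ J'},
      S.card ≤ (S.biUnion fun c => Vt F T c.1 \ Ut F T J').card := by
    intro S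
    have h2 := hall (S.map ⟨Subtype.val, Subtype.val_injective⟩) (by
      intro c hc
      rw [mem_map] at hc
      obtain ⟨c', _, rfl⟩ := hc
      exact c'.2)
    rw [card_map] at h2
    refine h2.trans (card_le_card ?_)
    intro u hu
    rw [mem_sdiff, Ut, mem_biUnion] at hu
    obtain ⟨⟨c, hc, hu1⟩, hu2⟩ := hu
    rw [mem_map] at hc
    obtain ⟨c', hc', rfl⟩ := hc
    rw [mem_biUnion]
    exact ⟨c', hc', mem_sdiff.mpr ⟨hu1, hu2⟩⟩
  obtain ⟨r, hr, hrm⟩ := (Finset.all_card_le_biUnion_card_iff_exists_injective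
    (fun c : {c // c ∈ J \ J'} => Vt F T c.1 \ Ut F T J')).mp h1
  have h3 : ∀ c : {c // c ∈ J \ J'}, ∃ i, (F c.1 i).1 = r c := fun c =>
    ((mem_vt F T c.1 (r c)).mp (mem_sdiff.mp (hrm c)).1).1
  choose p hp using h3
  have hrT : ∀ c, r c ∉ T := fun c =>
    ((mem_vt F T c.1 (r c)).mp (mem_sdiff.mp (hrm c)).1).2
  have hrU : ∀ c, r c ∉ Ut F T J' := fun c => (mem_sdiff.mp (hrm c)).2
  let z' : Fin n → Bool := fun u =>
    if h : ∃ c, r c = u then (F (Classical.choose h).1 (p (Classical.choose h))).2 else z u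
  have hz'r : ∀ c, z' (r c) = (F c.1 (p c)).2 := by
    intro c
    have h : ∃ c', r c' = r c := ⟨c, rfl⟩
    have hc : Classical.choose h = c := hr (Classical.choose_spec h)
    have h4 : z' (r c) = (F (Classical.choose h).1 (p (Classical.choose h))).2 := dif_pos h
    rw [h4, hc]
  have hz'z : ∀ u, (∀ c, r c ≠ u) → z' u = z u := by
    intro u hu
    exact dif_neg (fun h => hu h.choose h.choose_spec)
  refine ⟨z', fun u hu => ?_, fun c hc => ?_⟩
  · rw [hz'z u (fun c hcu => hrT c (hcu ▸ hu)), hzT u hu]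
  · by_cases hcJ : c ∈ J'
    · obtain ⟨i, _, hi⟩ := hz c hcJ
      refine ⟨i, mem_univ _, ?_⟩
      rw [hz'z _ ?_, hi]
      intro c' hc'
      by_cases hT : (F c i).1 ∈ T
      · exact hrT c' (hc' ▸ hT)
      · apply hrU c'
        rw [hc', Ut, mem_biUnion]
        exact ⟨c, hcJ, (mem_vt F T c _).mpr ⟨⟨i, rfl⟩, hT⟩⟩
    · let c' : {c // c ∈ J \ J'} := ⟨c, mem_sdiff.mpr ⟨hc, hcJ⟩⟩
      refine ⟨p c', mem_univ _, ?_⟩
      have h5 : (F c (p c')).1 = r c' := hp c'
      rw [h5]
      exact hz'r c'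

theorem pf_TRS : T_TRS := by
  classical
  intro n k m F z₀ T J hJ hmin
  refine ⟨?_, ?_⟩
  · intro c hc i hiT hi
    obtain ⟨z, hzT, hz⟩ := hmin (J.erase c) (erase_ssubset hc)
    apply hJ
    refine ⟨z, hzT, fun c' hc' => ?_⟩
    by_cases h : c' = c
    · subst h
      exact ⟨i, mem_univ _, by rw [hzT _ hiT, hi]⟩
    · exact hz c' (mem_erase.mpr ⟨h, hc'⟩)
  · rw [ut_eq]
    by_contra hcon
    push Not at hcon
    -- a maximal subset
    have hmax : ∃ J' : Finset (Fin m), J' ⊂ J ∧ ∀ J'' ⊆ J,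
        (J''.card : ℤ) - (Ut F T J'').card ≤ (J'.card : ℤ) - (Ut F T J').card := by
      obtain ⟨J', hJ', hJ'm⟩ := exists_max_image J.powerset
        (fun J'' => (J''.card : ℤ) - (Ut F T J'').card) ⟨∅, empty_mem_powerset J⟩
      rw [mem_powerset] at hJ'
      by_cases h : J' = J
      · refine ⟨∅, ?_, ?_⟩
        · rw [empty_ssubset]
          rw [nonempty_iff_ne_empty]
          rintro rfl
          exact hJ ⟨z₀, fun _ _ => rfl, fun c hc => absurd hc (notMem_empty c)⟩
        · intro J'' hJ''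
          have h1 := hJ'm J'' (mem_powerset.mpr hJ'')
          rw [h] at h1
          have h2 : (Ut F T ∅).card = 0 := by simp [Ut]
          rw [h2, card_empty]
          have h3 : (J.card : ℤ) ≤ (Ut F T J).card := by exact_mod_cast hcon
          omega
      · exact ⟨J', lt_of_le_of_ne hJ' h,
          fun J'' hJ'' => hJ'm J'' (mem_powerset.mpr hJ'')⟩
    obtain ⟨J', hJ'J, hJ'm⟩ := hmax
    apply hJ
    apply ok_of_hall F z₀ T J J' (hmin J' hJ'J)
    intro J'' hJ''
    have hdis : Disjoint J' J'' := by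
      rw [disjoint_left]
      intro c hc hc'
      exact (mem_sdiff.mp (hJ'' hc')).2 hc
    have h1 := hJ'm (J' ∪ J'') (union_subset hJ'J.subset
      (fun c hc => (mem_sdiff.mp (hJ'' hc)).1))
    rw [card_union_of_disjoint hdis] at h1
    have h2 : (Ut F T (J' ∪ J'')).card = (Ut F T J').card + (Ut F T J'' \ Ut F T J').card := by
      have h3 : Ut F T (J' ∪ J'') = Ut F T J' ∪ (Ut F T J'' \ Ut F T J') := by
        rw [union_sdiff_self_eq_union, Ut, union_biUnion]
        rfl
      rw [h3, card_union_of_disjoint disjoint_sdiff]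
    rw [h2] at h1
    push_cast at h1
    omega

end Pool.Agent.H27.RKS
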