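import Pool.Agent.H97.RK.Targets

/-!
Row NSA of the board rks_modules.
-/

set_option autoImplicit false

namespace Pool.Agent.H27.RKS

open Finset Pool.Agent.H97.RK

theorem four_mul_pow (n : ℕ) (hn : 20 ≤ n) : 4 * (n : ℝ) * (3 / 4 : ℝ) ^ n ≤ 1 := by
  induction n, hn using Nat.le_induction with
  | base => norm_num
  | succ n hn ih =>
    have hn' : (20 : ℝ) ≤ n := by exact_mod_cast hn
    have hp : (0 : ℝ) ≤ (3 / 4 : ℝ) ^ n := by positivity
    calc 4 * ((n + 1 : ℕ) : ℝ) * (3 / 4 : ℝ) ^ (n + 1)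
        = (3 * ((n : ℝ) + 1)) * (3 / 4 : ℝ) ^ n := by push_cast; ring
      _ ≤ (4 * (n : ℝ)) * (3 / 4 : ℝ) ^ n := by
          apply mul_le_mul_of_nonneg_right _ hp
          linarith
      _ ≤ 1 := ih

theorem pf_NSA : T_NSA := by
  refine ⟨20, fun k n m hn hm => ?_⟩
  have hn0 : (0 : ℝ) < n := by
    have : (20 : ℝ) ≤ n := by exact_mod_cast hn
    linarith
  have hx0 : (0 : ℝ) < (1 / 2 : ℝ) ^ k := by positivity
  have hx1 : (1 / 2 : ℝ) ^ k ≤ 1 := pow_le_one₀ (by norm_num) (by norm_num)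
  have h1 : (1 - (1 / 2 : ℝ) ^ k) ^ m ≤ Real.exp (-(n : ℝ)) := by
    have h2 : 1 - (1 / 2 : ℝ) ^ k ≤ Real.exp (-((1 / 2 : ℝ) ^ k)) := by
      have := Real.add_one_le_exp (-((1 / 2 : ℝ) ^ k))
      linarith
    calc (1 - (1 / 2 : ℝ) ^ k) ^ m ≤ (Real.exp (-((1 / 2 : ℝ) ^ k))) ^ m :=
          pow_le_pow_left₀ (by linarith) h2 m
      _ = Real.exp ((m : ℝ) * (-((1 / 2 : ℝ) ^ k))) := (Real.exp_nat_mul _ _).symm
      _ ≤ Real.exp (-(n : ℝ)) := by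
          apply Real.exp_le_exp.mpr
          have h3 : ((2 : ℝ) ^ k) * n ≤ m := by exact_mod_cast hm
          have h4 : (n : ℝ) ≤ m * (1 / 2 : ℝ) ^ k := by
            have h5 : (2 : ℝ) ^ k * (1 / 2 : ℝ) ^ k = 1 := by
              rw [← mul_pow]; norm_num
            calc (n : ℝ) = (2 : ℝ) ^ k * n * (1 / 2 : ℝ) ^ k := by
                  rw [mul_right_comm, h5, one_mul]
              _ ≤ m * (1 / 2 : ℝ) ^ k := mul_le_mul_of_nonneg_right h3 hx0.le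
          linarith
  have h6 : Real.exp (-(n : ℝ)) ≤ (3 / 8 : ℝ) ^ n := by
    have h7 : Real.exp (-1) ≤ 3 / 8 := by
      rw [Real.exp_neg]
      rw [inv_le_comm₀ (Real.exp_pos 1) (by norm_num)]
      have := Real.exp_one_gt_d9
      norm_num
      linarith
    calc Real.exp (-(n : ℝ)) = (Real.exp (-1)) ^ n := by
          rw [← Real.exp_nat_mul]; congr 1; ring
      _ ≤ (3 / 8 : ℝ) ^ n := pow_le_pow_left₀ (Real.exp_pos _).le h7 n
  have h8 : (2 : ℝ) ^ n * (1 - (1 / 2 : ℝ) ^ k) ^ m ≤ (3 / 4 : ℝ) ^ n := by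
    calc (2 : ℝ) ^ n * (1 - (1 / 2 : ℝ) ^ k) ^ m ≤ (2 : ℝ) ^ n * (3 / 8 : ℝ) ^ n :=
          mul_le_mul_of_nonneg_left (h1.trans h6) (by positivity)
      _ = (3 / 4 : ℝ) ^ n := by rw [← mul_pow]; norm_num
  refine h8.trans ?_
  rw [le_div_iff₀ (by positivity)]
  have := four_mul_pow n hn
  linarith

end Pool.Agent.H27.RKS
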